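import Pool.Agent.H961.T3.Stm5
import Pool.Agent.H961.T3.Stir

/-!
# MS STP. From the circuit recursion to stirring, all dimensions `d ≥ 2`
-/

set_option autoImplicit false
set_option linter.unusedSectionVars false
set_option linter.unusedVariables false

namespace Pool.Agent.H200.MS

open Finset Equiv Matrix Q292.LC Pool.Agent.H961.T2 Pool.Agent.H961.T3 Pool.Agent.H961.T3.Stirh
open Pool.Agent.Y998.ST (stirExp nnRate cycleLen)

/-- the error term of the resolvent -/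
theorem err_arith2 {ℓ t K ε' r : ℝ} (m₀ : ℕ) (L2 : ℝ) (hℓ : 2 / ε' ≤ ℓ)
    (hℓ1 : 1 ≤ ℓ) (hε0 : 0 < ε') (hK0 : 0 < K) (ht : t ≤ 2 * K) (hKt : K ≤ t) (hL2 : 0 ≤ L2)
    (h2 : ℓ ^ (m₀ + 1) * (1 + L2 / t) ≤ r) (hr : 0 ≤ r) :
    ℓ ^ m₀ * (1 + L2 / K) ≤ ε' * r := by
  have ht0 : 0 < t := by linarith
  have hℓ0 : 0 < ℓ := by linarith
  have e1 : 1 + L2 / K ≤ 2 * (1 + L2 / t) := by
    have : L2 / K ≤ 2 * (L2 / t) := by
      rw [← mul_div_assoc, div_le_div_iff₀ hK0 ht0]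
      nlinarith
    linarith
  have a1 : ℓ ^ m₀ * (1 + L2 / K) ≤ ℓ ^ m₀ * (2 * (1 + L2 / t)) :=
    mul_le_mul_of_nonneg_left e1 (pow_nonneg hℓ0.le _)
  have a2 : ℓ ^ m₀ * (2 * (1 + L2 / t)) * ℓ = 2 * (ℓ ^ (m₀ + 1) * (1 + L2 / t)) := by ring
  have a3 : ℓ ^ m₀ * (2 * (1 + L2 / t)) * ℓ ≤ 2 * r := by rw [a2]; linarith
  have a4 : 2 ≤ ε' * ℓ := by
    rw [div_le_iff₀ hε0] at hℓ; linarith
  have a5 : 0 ≤ ℓ ^ m₀ * (2 * (1 + L2 / t)) := by positivity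
  have a6 : ℓ ^ m₀ * (2 * (1 + L2 / t)) * 2 ≤ ℓ ^ m₀ * (2 * (1 + L2 / t)) * (ε' * ℓ) :=
    mul_le_mul_of_nonneg_left a4 a5
  have a7 : ℓ ^ m₀ * (2 * (1 + L2 / t)) * (ε' * ℓ) ≤ ε' * (2 * r) := by
    calc ℓ ^ m₀ * (2 * (1 + L2 / t)) * (ε' * ℓ) = ε' * (ℓ ^ m₀ * (2 * (1 + L2 / t)) * ℓ) := by
          ring
      _ ≤ ε' * (2 * r) := mul_le_mul_of_nonneg_left a3 hε0.le
  linarith

theorem stp (hREC : S_REC) (hCIP : S_CIP) : S_STP := by
  intro d hd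
  obtain ⟨m₀, hcir0⟩ := hCIP d hd
  refine ⟨m₀ + 1, ?_⟩
  intro k ε hε
  obtain ⟨Tc, hcir⟩ := hcir0 (k + 3)
  obtain ⟨ε', hε'⟩ : ∃ ε' : ℝ, ε' = min ε 1 / (3 * k + 1) := ⟨_, rfl⟩
  have hk0 : (0 : ℝ) ≤ k := Nat.cast_nonneg _
  have hk1 : (0 : ℝ) < 3 * k + 1 := by linarith
  have hmin : 0 < min ε 1 := lt_min hε one_pos
  have hε'0 : 0 < ε' := by rw [hε']; exact div_pos hmin hk1
  have hε'k : 3 * k * ε' ≤ min ε 1 := by
    have e1 : (3 * k + 1) * ε' = min ε 1 := by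
      rw [hε']; field_simp
    linarith
  have hε'1 : 3 * k * ε' ≤ 1 := hε'k.trans (min_le_right _ _)
  have hε'ε : 3 * k * ε' ≤ ε := hε'k.trans (min_le_left _ _)
  obtain ⟨Λ, hΛ⟩ : ∃ Λ : ℝ, Λ = 2 + 2 / ε' := ⟨_, rfl⟩
  have h4ε : 0 < 2 / ε' := by positivity
  have hT3 : 0 < 1 / ε' := by positivity
  have hT4 : 0 < Real.exp (d * Λ) := Real.exp_pos _
  have hm₀ : (0 : ℝ) ≤ Tc := Nat.cast_nonneg _
  obtain ⟨T, hT⟩ : ∃ T : ℝ, T = 1 + Tc + Real.exp (d * Λ) + 1 / ε' :=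
    ⟨_, rfl⟩
  refine ⟨T, by rw [hT]; linarith, ?_⟩
  intro L _ t ws hws hL hTt hlogt htL hv
  have hd0 : (0 : ℝ) < d := by
    have : 0 < d := by omega
    exact_mod_cast this
  have hL1 : 1 ≤ L := by omega
  have hL0 : (0 : ℝ) < L := by exact_mod_cast hL1
  have hLd0 : (0 : ℝ) < (L : ℝ) ^ d := pow_pos hL0 d
  have ht1 : 1 ≤ t := by
    have : 1 ≤ T := by rw [hT]; linarith
    linarith
  -- the logarithm
  obtain ⟨ℓ, hℓ⟩ : ∃ ℓ : ℝ, ℓ = Real.log L := ⟨_, rfl⟩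
  have hℓΛ : Λ ≤ ℓ := by
    have h1 : Real.exp (d * Λ) ≤ (L : ℝ) ^ d := by
      have : Real.exp (d * Λ) ≤ T := by rw [hT]; linarith
      linarith
    rw [Pool.Agent.Q297.LC.pow_exp hL1, Real.exp_le_exp, ← hℓ] at h1
    exact le_of_mul_le_mul_left h1 hd0
  have hℓ2 : 2 ≤ ℓ := by rw [hΛ] at hℓΛ; linarith
  have hℓ4 : 2 / ε' ≤ ℓ := by rw [hΛ] at hℓΛ; linarith
  rw [← hℓ] at hlogt
  -- the number of units
  obtain ⟨K, hK⟩ : ∃ K : ℕ, K = ⌊t⌋₊ := ⟨_, rfl⟩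
  have hKt : (K : ℝ) ≤ t := by rw [hK]; exact Nat.floor_le (by linarith)
  have hK1 : 1 ≤ K := by rw [hK]; exact Nat.le_floor (by rw [Nat.cast_one]; exact ht1)
  have hK1' : (1 : ℝ) ≤ K := by exact_mod_cast hK1
  have htK : t < K + 1 := by rw [hK]; exact Nat.lt_floor_add_one t
  have ht2K : t ≤ 2 * K := by linarith
  have hm₀K : Tc ≤ K := by
    rw [hK]
    refine Nat.le_floor ?_
    have : (Tc : ℝ) ≤ T := by rw [hT]; linarith
    linarith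
  have hKL : K ≤ L ^ d := by
    have : (K : ℝ) ≤ (L : ℝ) ^ d := hKt.trans htL
    exact_mod_cast this
  have hlogK : ℓ ^ m₀ ≤ K := by
    have h1 : ℓ ^ m₀ * 2 ≤ ℓ ^ (m₀ + 1) := by
      rw [pow_succ]
      exact mul_le_mul_of_nonneg_left hℓ2 (pow_nonneg (by linarith) _)
    linarith
  have hlogmono : ℓ ^ m₀ ≤ ℓ ^ (m₀ + 1) := pow_le_pow_right₀ (by linarith) (by omega)
  -- wb
  obtain ⟨wb, b0, b1, b2, b3⟩ := exists_wb (X := ℓ ^ m₀) (Y := (L : ℝ) ^ d)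
    (hlogK.trans (hKt.trans htL)) ws (fun v hvw => by
      obtain ⟨a1, a2, a3, a5⟩ := hv v hvw
      rw [← hℓ] at a5
      exact ⟨a1, a2, hlogmono.trans a5⟩)
  have hcard : (Fintype.card (Fin d → ZMod L) : ℝ) = (L : ℝ) ^ d := by
    rw [Fintype.card_fun, ZMod.card, Fintype.card_fin]
    push_cast
    rfl
  -- circuits
  have key : ∃ q₀ : ℕ, ∀ q ≥ q₀, ∀ σ : ℕ → (Fin d → ZMod L) × Fin d, Per σ → ∀ δ : ℝ,
      1 ≤ δ * q → δ * q ≤ 2 →
      |EE (K * (q * ms d L)) δ (fun ω => ph (ι := Finset (Fin d → ZMod L)) card ws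
        (cycs (gp (ed ∘ σ) ω (K * (q * ms d L))))) - (ws.map fun v => 1 / (1 - v)).prod| ≤
        ε * (ws.map fun v => 1 / (1 - v)).prod := by
    obtain ⟨q₀, hq₀⟩ := hcir L K hL hm₀K hKL (by rw [← hℓ]; exact hlogK)
    refine ⟨q₀ + 2, fun q hq σ hσ δ h1 h2 => ?_⟩
    have hq' : (2 : ℝ) ≤ q := by
      have : 2 ≤ q := by omega
      exact_mod_cast this
    have hδ0 : 0 ≤ δ := by
      by_contra hcon
      push Not at hcon
      nlinarith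
    have hδ1 : δ ≤ 1 := by nlinarith
    obtain ⟨B, hB, hBG, hBP⟩ := hq₀ q (by omega) σ hσ δ h1 h2
    have hmain := circ hREC (ed ∘ σ) (K * (q * ms d L)) δ wb ε' k B hδ0 hδ1 b1 hB hε'0 hε'1
      (by rw [hcard]; exact ht1.trans htL)
      (by
        rw [hcard]
        have e1 : 1 / ε' ≤ (L : ℝ) ^ d := by
          have : 1 / ε' ≤ T := by rw [hT]; linarith
          linarith
        rw [div_le_iff₀ hε'0] at e1
        linarith)
      (by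
        rw [hcard]
        exact hBP wb b0 b1 (by rw [← hℓ]; exact b2))
      ws hws.le (fun v hvw => by
        obtain ⟨a1, a2, a4, a5⟩ := hv v hvw
        refine ⟨a1, b3 v hvw, fun ω A hBA hI => ?_⟩
        refine (hBG ω A hBA hI v a1 a2).trans ?_
        rw [← hℓ] at a4 ⊢
        have hr0 : 0 ≤ 1 / (1 - v) := div_nonneg zero_le_one (by linarith)
        exact err_arith2 m₀ ((L : ℝ) ^ d) hℓ4 (by linarith) hε'0
          (by linarith) ht2K hKt hLd0.le a4 hr0)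
    obtain ⟨m1, m2⟩ := hmain
    refine m1.trans (mul_le_mul_of_nonneg_right ?_ (by linarith))
    rw [hws]
    exact hε'ε
  -- the bound for `ph`
  have hv01 : ∀ v ∈ ws, 0 ≤ v ∧ v ≤ 1 := fun v hvw => ⟨(hv v hvw).1, (hv v hvw).2.1.le⟩
  have hph : ∀ g : Perm (Fin d → ZMod L),
      |ph (ι := Finset (Fin d → ZMod L)) card ws (cycs g)| ≤ ((L : ℝ) ^ d) ^ k := by
    intro g
    obtain ⟨p1, p2⟩ := ph_bound (ι := Finset (Fin d → ZMod L)) card ws hv01 (cycs g)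
    have e1 : ∑ C ∈ cycs g, ((C.card : ℕ) : ℝ) = (L : ℝ) ^ d := by
      rw [← Nat.cast_sum, sum_cycs g, hcard]
    rw [abs_of_nonneg p1]
    rw [e1, hws] at p2
    exact p2
  obtain ⟨P, hP⟩ : ∃ P : ℝ, P = (ws.map fun v => 1 / (1 - v)).prod := ⟨_, rfl⟩
  rw [← hP] at key ⊢
  have hM : (0 : ℝ) < ((L : ℝ) ^ d) ^ k := pow_pos hLd0 k
  have up : stirExp (nnRate d L) t (fun g => ph (ι := Finset (Fin d → ZMod L)) card ws (cycs g)) ≤
      P + ε * P := by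
    refine stir_le (by omega) hL hK1 hKt ht2K hM hph ?_
    obtain ⟨q₀, hq₀⟩ := key
    refine ⟨q₀, fun q hq σ hσ δ h1 h2 => ?_⟩
    have := (abs_le.1 (hq₀ q hq σ hσ δ h1 h2)).2
    linarith
  have low : stirExp (nnRate d L) t
      (fun g => -1 * ph (ι := Finset (Fin d → ZMod L)) card ws (cycs g)) ≤ -P + ε * P := by
    refine stir_le (by omega) hL hK1 hKt ht2K hM (fun g => ?_) ?_
    · rw [neg_one_mul, abs_neg]
      exact hph g
    obtain ⟨q₀, hq₀⟩ := key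
    refine ⟨q₀, fun q hq σ hσ δ h1 h2 => ?_⟩
    have := (abs_le.1 (hq₀ q hq σ hσ δ h1 h2)).1
    rw [Pool.Agent.Q68.LC.EE_smul (K * (q * ms d L)) δ (-1)
      (fun ω => ph (ι := Finset (Fin d → ZMod L)) card ws
        (cycs (gp (ed ∘ σ) ω (K * (q * ms d L)))))]
    linarith
  have hneg : stirExp (nnRate d L) t
      (fun g => -1 * ph (ι := Finset (Fin d → ZMod L)) card ws (cycs g)) =
      -1 * stirExp (nnRate d L) t
        (fun g => ph (ι := Finset (Fin d → ZMod L)) card ws (cycs g)) := by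
    unfold stirExp
    rw [mul_sum]
    exact sum_congr rfl fun g _ => by ring
  rw [hneg] at low
  rw [abs_le]
  constructor <;> linarith

end Pool.Agent.H200.MS
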